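import Pool.Agent.NDR.StmtsG

/-!
Squad NDR (MP_b48657_ag), row KSG: sign rule, the square of the Koszul differential is zero.
-/

set_option autoImplicit false

namespace Pool.Agent.NDR.H27

open Finset

theorem kd_eq {T R : Type} [inst : DecidableEq T] [CommRing R] (a : T → R) (S : Finset T)
    (x : Finset T → R) (U : Finset T) :
    kd a S x U = ∑ j ∈ S \ U, sg j U • (a j * x (insert j U)) := by
  have h : inst = fun a b => Classical.propDecidable (a = b) := Subsingleton.elim _ _
  subst h
  rfl

open Classical in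
theorem sg_def {T : Type} (j : T) (U : Finset T) :
    sg j U = (-1) ^ (U.filter fun k => WellOrderingRel k j).card := rfl

open Classical in
theorem sg_insert {T : Type} [DecidableEq T] (j k : T) (U : Finset T) (hk : k ∉ U) :
    sg j (insert k U) = (if WellOrderingRel k j then -1 else 1) * sg j U := by
  rw [sg_def, sg_def, Finset.filter_insert]
  split_ifs with h
  · rw [Finset.card_insert_of_notMem (fun hm => hk (Finset.mem_filter.1 hm).1), pow_succ]
    ring
  · rw [one_mul]

theorem sg_sq {T : Type} (j : T) (U : Finset T) : sg j U * sg j U = 1 := by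
  classical
  rw [sg_def, ← mul_pow]
  simp

theorem sg_swap {T : Type} [DecidableEq T] (j k : T) (U : Finset T) (hjk : j ≠ k) (hj : j ∉ U)
    (hk : k ∉ U) : sg j (insert k U) * sg k U = - (sg k (insert j U) * sg j U) := by
  classical
  rw [sg_insert j k U hk, sg_insert k j U hj]
  rcases trichotomous_of WellOrderingRel j k with h | h | h
  · rw [if_neg (asymm h), if_pos h]
    ring
  · exact absurd h hjk
  · rw [if_pos h, if_neg (asymm h)]
    ring

/-- the terms of the double sum -/
noncomputable def tm {T R : Type} [DecidableEq T] [CommRing R] (a : T → R) (x : Finset T → R)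
    (U : Finset T) (p : T × T) : R :=
  if p.1 = p.2 then 0 else
    (sg p.2 (insert p.1 U) * sg p.1 U) • (a p.1 * a p.2 * x (insert p.2 (insert p.1 U)))

theorem kd_kd {T R : Type} [DecidableEq T] [CommRing R] (a : T → R) (S : Finset T)
    (x : Finset T → R) : kd a S (kd a S x) = 0 := by
  funext U
  have h1 : kd a S (kd a S x) U = ∑ p ∈ (S \ U) ×ˢ (S \ U), tm a x U p := by
    rw [kd_eq, Finset.sum_product]
    refine Finset.sum_congr rfl fun j hj => ?_
    rw [Finset.mem_sdiff] at hj
    rw [kd_eq, Finset.mul_sum, Finset.smul_sum]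
    have h2 : S \ insert j U = (S \ U).erase j := by
      ext k
      simp only [Finset.mem_sdiff, Finset.mem_insert, Finset.mem_erase]
      tauto
    rw [h2, ← Finset.add_sum_erase (S \ U) _ (Finset.mem_sdiff.2 hj)]
    rw [show tm a x U (j, j) = 0 from if_pos rfl, zero_add]
    refine Finset.sum_congr rfl fun k hk => ?_
    rw [show tm a x U (j, k) = (sg k (insert j U) * sg j U) •
      (a j * a k * x (insert k (insert j U))) from if_neg (Finset.ne_of_mem_erase hk).symm]
    rw [mul_smul_comm, smul_smul, mul_comm (sg j U), mul_assoc]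
  rw [h1]
  refine Finset.sum_involution (fun p _ => p.swap) (fun p hp => ?_) (fun p hp h => ?_)
    (fun p hp => ?_) (fun p hp => Prod.swap_swap p)
  · obtain ⟨j, k⟩ := p
    rw [Finset.mem_product, Finset.mem_sdiff, Finset.mem_sdiff] at hp
    unfold tm
    dsimp only [Prod.swap_prod_mk]
    by_cases h : j = k
    · rw [if_pos h, if_pos h.symm, add_zero]
    · rw [if_neg h, if_neg (Ne.symm h), sg_swap k j U (Ne.symm h) hp.2.2 hp.1.2,
        Finset.insert_comm k j U, mul_comm (a k) (a j), neg_smul, neg_add_cancel]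
  · intro he
    apply h
    obtain ⟨j, k⟩ := p
    have : j = k := (congrArg Prod.snd he)
    exact if_pos this
  · rw [Finset.mem_product] at hp ⊢
    exact ⟨hp.2, hp.1⟩

theorem chn_kd {T R : Type} [DecidableEq T] [CommRing R] (a : T → R) (S : Finset T)
    (N : AddSubgroup R) (i : ℕ) (x : Finset T → R) (hs : Stb a S N) (hx : Chn S N (i + 1) x) :
    Chn S N i (kd a S x) := by
  intro U
  rw [kd_eq]
  refine ⟨sum_mem fun j hj => ?_, fun h => ?_⟩
  · exact N.zsmul_mem (hs j (Finset.mem_sdiff.1 hj).1 _ (hx _).1) _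
  · obtain ⟨j, hj, hne⟩ := Finset.exists_ne_zero_of_sum_ne_zero h
    have h1 : x (insert j U) ≠ 0 := by
      intro h0
      apply hne
      rw [h0, mul_zero, smul_zero]
    obtain ⟨h2, h3⟩ := (hx _).2 h1
    rw [Finset.card_insert_of_notMem (Finset.mem_sdiff.1 hj).2] at h3
    exact ⟨(Finset.subset_insert j U).trans h2, Nat.succ_injective h3⟩

theorem ksg : KsgStmt := fun _ _ _ _ =>
  ⟨fun j k U h1 h2 h3 => sg_swap j k U h1 h2 h3, fun j U => sg_sq j U, kd_kd, chn_kd⟩

end Pool.Agent.NDR.H27
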